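import Pool.Agent.Y513.SB.Conj

/-!
The compactness argument and the scaling argument.
-/

namespace Pool.Agent.Y513.SB

open MeasureTheory Module Set Filter Topology
open scoped ENNReal
open Pool.Agent.Results.MP_b62b68_gt.NoSymmetrization
open Pool.Agent.Y513.SG

variable {n : ℕ} {c : ℕ → ℝ≥0∞}

/-- There is a finite family of bodies on which no symmetrization with respect to a subspace of
dimension `d` almost preserves the functional. -/
def Obs (n : ℕ) (c : ℕ → ℝ≥0∞) (d : ℕ) : Prop :=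
  ∃ (𝓕 : Set (Set (E n))) (ε : ℝ), 𝓕.Finite ∧ 𝓕 ⊆ convexBodies n ∧ 0 < ε ∧
    ∀ H : Submodule ℝ (E n), finrank ℝ H = d → ∀ D : Set (E n) → Set (E n), Fix H D →
      ∃ K ∈ 𝓕, ε ≤ |(F n c (D K)).toReal - (F n c K).toReal|

theorem compactness (hc : ∀ i, c i ≠ ∞) {d : ℕ} (hno : ¬ Obs n c d) :
    ∃ H : Submodule ℝ (E n), finrank ℝ H = d ∧ ∃ D, Ex H D ∧
      ∀ K ∈ nonemptyCompactConvex n, F n c (D K) = F n c K := by
  classical
  unfold Obs at hno
  push Not at hno
  let I : Type := Finset ↥(convexBodies n) × ℕ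
  have hex : ∀ i : I, ∃ (H : Submodule ℝ (E n)) (D : Set (E n) → Set (E n)),
      finrank ℝ H = d ∧ Fix H D ∧
      ∀ K ∈ i.1, |(F n c (D K)).toReal - (F n c K).toReal| < 1 / ((i.2 : ℝ) + 1) := by
    intro i
    obtain ⟨H, hH, D, hD, hK⟩ := hno (Subtype.val '' (i.1 : Set ↥(convexBodies n)))
      (1 / ((i.2 : ℝ) + 1)) (i.1.finite_toSet.image _) (by rintro _ ⟨K, -, rfl⟩; exact K.2)
      (by positivity)
    exact ⟨H, D, hH, hD, fun K hKi => hK K ⟨K, hKi, rfl⟩⟩
  choose H D hH hD hDF using hex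
  let U : Ultrafilter I := Ultrafilter.of atTop
  have hU : (U : Filter I) ≤ atTop := Ultrafilter.of_le _
  have hF : ∀ K ∈ convexBodies n, ∀ ε : ℝ≥0∞, 0 < ε → ∀ᶠ i in (U : Filter I),
      F n c (D i K) ≤ F n c K + ε ∧ F n c K ≤ F n c (D i K) + ε := by
    intro K hK ε hε
    obtain ⟨m, hm⟩ : ∃ m : ℕ, ENNReal.ofReal (1 / ((m : ℝ) + 1)) < ε := by
      have h3 : Tendsto (fun m : ℕ => ENNReal.ofReal (1 / ((m : ℝ) + 1))) atTop (𝓝 0) := by
        rw [← ENNReal.ofReal_zero]
        exact ENNReal.tendsto_ofReal tendsto_one_div_add_atTop_nhds_zero_nat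
      exact (h3.eventually (gt_mem_nhds hε)).exists
    refine hU ?_
    refine Filter.mem_of_superset
      (Filter.Ici_mem_atTop ((({⟨K, hK⟩} : Finset ↥(convexBodies n)), m) : I)) ?_
    intro i hi
    have h4 : (⟨K, hK⟩ : ↥(convexBodies n)) ∈ i.1 := hi.1 (Finset.mem_singleton_self _)
    have h5 : (m : ℝ) ≤ i.2 := by exact_mod_cast hi.2
    have h6 := hDF i _ h4
    have h7 : ENNReal.ofReal (1 / ((i.2 : ℝ) + 1)) ≤ ε := by
      refine le_trans (ENNReal.ofReal_le_ofReal ?_) hm.le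
      gcongr
    obtain ⟨h8, h9⟩ := le_of_abs (F_lt_top hc ((hD i).compact K hK).isBounded).ne
      (F_lt_top hc hK.1.isBounded).ne h6
    exact ⟨h8.trans (add_le_add_right h7 _), h9.trans (add_le_add_right h7 _)⟩
  -- a common position
  let H₀ := H (∅, 0)
  have hex2 : ∀ i, ∃ e : E n ≃ₗᵢ[ℝ] E n, ∀ x, (H i).reflection (e x) = e (H₀.reflection x) :=
    fun i => exists_isom ((hH _).trans (hH i).symm)
  choose e he using hex2
  obtain ⟨e', he'⟩ := exists_isom_limit U e
  let D' : I → Set (E n) → Set (E n) := fun i K =>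
    (e i).toContinuousLinearEquiv.symm '' D i ((e i).toContinuousLinearEquiv '' K)
  have hD' : ∀ i, Fix H₀ (D' i) := fun i => (hD i).conj _ (he i)
  have hFD' : ∀ i K, F n c (D' i K) = F n c (D i (e i '' K)) := fun i K =>
    F_isom (e i).symm _
  have hbody : ∀ (f : E n ≃ₗᵢ[ℝ] E n) {K : Set (E n)}, K ∈ convexBodies n →
      f '' K ∈ convexBodies n := fun f K hK => image_body hK f.toContinuousLinearEquiv
  obtain ⟨D'', h1, h2⟩ := limit hc H₀ U D' hD' (by
    intro K hK m ε hε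
    obtain ⟨R, -, hR⟩ := exists_radius hK
    have hT := thick_body m (body_nonempty hK)
    filter_upwards [he' R (1 / (m + 1 : ℝ)) (by positivity), hF _ (hbody e' hT) ε hε] with i h3 h4
    rw [hFD']
    refine (F_mono ((hD i).mono _ (hbody (e i) hK) _ (hbody e' hT) (sub_thick hR h3))).trans ?_
    rw [← F_isom e' (thick m K)]
    exact h4.1) (by
    intro K hK m ε hε
    obtain ⟨R, -, hR⟩ := exists_radius hK
    have hT := thick_body m (body_nonempty hK)
    filter_upwards [he' R (1 / (m + 1 : ℝ)) (by positivity), hF _ (hbody e' hK) ε hε] with i h3 h4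
    rw [hFD', ← F_isom e' K]
    refine h4.2.trans (add_le_add_left (F_mono ?_) _)
    refine (hD i).mono _ (hbody e' hK) _ (hbody (e i) hT) (sub_thick hR ?_)
    intro x hx
    rw [norm_sub_rev]
    exact h3 x hx)
  exact ⟨H₀, hH _, D'', h1, h2⟩

/-- The homothety of ratio `k + 1`. -/
noncomputable def hom (n k : ℕ) : E n ≃L[ℝ] E n :=
  (LinearEquiv.smulOfNeZero ℝ (E n) ((k : ℝ) + 1)
    (Nat.cast_add_one_ne_zero k)).toContinuousLinearEquiv

theorem hom_apply (k : ℕ) (x : E n) : hom n k x = ((k : ℝ) + 1) • x := rfl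

theorem V_hom {j : ℕ} (hj : j ≤ n) (k : ℕ) (K : Set (E n)) :
    V n j (hom n k '' K) = ENNReal.ofReal (((k : ℝ) + 1) ^ j) * V n j K :=
  V_smul hj (t := (k : ℝ) + 1) (by positivity) K

/-- Scaling isolates the leading term of the functional. -/
theorem scaling (hc : ∀ i, c i ≠ ∞) {J : ℕ} (hJ : J < n) (hcJ : c J ≠ 0)
    (hz : ∀ i, J < i → i < n → c i = 0) (H : Submodule ℝ (E n)) {D : Set (E n) → Set (E n)}
    (hD : Ex H D) (hF : ∀ K ∈ nonemptyCompactConvex n, F n c (D K) = F n c K) :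
    ∃ D', Ex H D' ∧ ∀ K ∈ nonemptyCompactConvex n, V n (J + 1) (D' K) = V n (J + 1) K := by
  let c' : ℕ → ℝ≥0∞ := fun i => if i = J then c J else 0
  have hc' : ∀ i, c' i ≠ ∞ := by
    intro i
    simp only [c']
    split_ifs
    · exact hc J
    · exact ENNReal.zero_ne_top
  have hFc' : ∀ K, F n c' K = c J * V n (J + 1) K := by
    intro K
    unfold F
    rw [Finset.sum_eq_single J]
    · simp [c']
    · intro i _ hi
      simp [c', hi]
    · intro h
      exact absurd (Finset.mem_range.2 hJ) h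
  let D' : ℕ → Set (E n) → Set (E n) := fun k K => (hom n k).symm '' D (hom n k '' K)
  have hD' : ∀ k, Fix H (D' k) := fun k => hD.fix.conj _ (fun x => by
    rw [hom_apply, hom_apply, map_smul])
  have himg : ∀ k K, hom n k '' D' k K = D (hom n k '' K) := by
    intro k K
    simp only [D', Set.image_image, ContinuousLinearEquiv.apply_symm_apply, Set.image_id']
  have hFh : ∀ k S, F n c (hom n k '' S) =
      ∑ i ∈ Finset.range n, c i * (ENNReal.ofReal (((k : ℝ) + 1) ^ (i + 1)) * V n (i + 1) S) := by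
    intro k S
    unfold F
    refine Finset.sum_congr rfl fun i hi => ?_
    rw [V_hom (Finset.mem_range.1 hi)]
  have hpres : ∀ k, ∀ K ∈ convexBodies n, F n c (hom n k '' D' k K) = F n c (hom n k '' K) := by
    intro k K hK
    rw [himg]
    exact hF _ (body_nonempty (image_body hK _))
  -- the two estimates
  have hT0 : ∀ k : ℕ, ENNReal.ofReal (((k : ℝ) + 1) ^ (J + 1)) ≠ 0 := by
    intro k
    rw [Ne, ENNReal.ofReal_eq_zero, not_le]
    positivity
  have hlow : ∀ (k : ℕ) (S : Set (E n)), ENNReal.ofReal (((k : ℝ) + 1) ^ (J + 1)) * F n c' S ≤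
      F n c (hom n k '' S) := by
    intro k S
    rw [hFh, hFc', mul_left_comm]
    exact Finset.single_le_sum
      (f := fun i => c i * (ENNReal.ofReal (((k : ℝ) + 1) ^ (i + 1)) * V n (i + 1) S))
      (fun _ _ => zero_le) (Finset.mem_range.2 hJ)
  have hup : ∀ (k : ℕ) (S : Set (E n)), F n c (hom n k '' S) ≤ ENNReal.ofReal (((k : ℝ) + 1) ^ (J + 1)) *
      (F n c' S + ENNReal.ofReal (1 / ((k : ℝ) + 1)) * F n c S) := by
    intro k S
    rw [hFh]
    unfold F
    rw [Finset.mul_sum, ← Finset.sum_add_distrib, Finset.mul_sum]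
    refine Finset.sum_le_sum fun i hi => ?_
    rw [Finset.mem_range] at hi
    rcases lt_trichotomy i J with h | h | h
    · have h1 : ENNReal.ofReal (((k : ℝ) + 1) ^ (i + 1)) ≤
          ENNReal.ofReal (((k : ℝ) + 1) ^ (J + 1)) * ENNReal.ofReal (1 / ((k : ℝ) + 1)) := by
        rw [← ENNReal.ofReal_mul (by positivity)]
        refine ENNReal.ofReal_le_ofReal ?_
        have h2 : ((k : ℝ) + 1) ^ (J + 1) * (1 / ((k : ℝ) + 1)) = ((k : ℝ) + 1) ^ J := by
          field_simp
          ring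
        rw [h2]
        exact pow_le_pow_right₀ (by linarith [(Nat.cast_nonneg k : (0 : ℝ) ≤ k)]) h
      calc c i * (ENNReal.ofReal (((k : ℝ) + 1) ^ (i + 1)) * V n (i + 1) S)
          ≤ c i * (ENNReal.ofReal (((k : ℝ) + 1) ^ (J + 1)) *
            ENNReal.ofReal (1 / ((k : ℝ) + 1)) * V n (i + 1) S) := by gcongr
        _ = ENNReal.ofReal (((k : ℝ) + 1) ^ (J + 1)) *
            (0 + ENNReal.ofReal (1 / ((k : ℝ) + 1)) * (c i * V n (i + 1) S)) := by ring
        _ ≤ _ := by gcongr; exact zero_le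
    · subst h
      simp only [c', if_true]
      calc c i * (ENNReal.ofReal (((k : ℝ) + 1) ^ (i + 1)) * V n (i + 1) S)
          = ENNReal.ofReal (((k : ℝ) + 1) ^ (i + 1)) * (c i * V n (i + 1) S + 0) := by ring
        _ ≤ _ := by gcongr; exact zero_le
    · rw [hz i h hi, zero_mul]
      exact zero_le
  have hT : ∀ k : ℕ, ENNReal.ofReal (((k : ℝ) + 1) ^ (J + 1)) ≠ ∞ := fun k =>
    ENNReal.ofReal_ne_top
  have est1 : ∀ k, ∀ K ∈ convexBodies n, F n c' (D' k K) ≤
      F n c' K + ENNReal.ofReal (1 / ((k : ℝ) + 1)) * F n c K := by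
    intro k K hK
    have h1 := (hlow k (D' k K)).trans ((hpres k K hK).le.trans (hup k K))
    exact (ENNReal.mul_le_mul_iff_right (hT0 k) (hT k)).1 h1
  have est2 : ∀ k, ∀ K ∈ convexBodies n, F n c' K ≤
      F n c' (D' k K) + ENNReal.ofReal (1 / ((k : ℝ) + 1)) * F n c (D' k K) := by
    intro k K hK
    have h1 := (hlow k K).trans ((hpres k K hK).ge.trans (hup k (D' k K)))
    exact (ENNReal.mul_le_mul_iff_right (hT0 k) (hT k)).1 h1
  have hsmall : ∀ C : ℝ≥0∞, C ≠ ∞ → ∀ ε : ℝ≥0∞, 0 < ε → ∀ᶠ k : ℕ in atTop,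
      ENNReal.ofReal (1 / ((k : ℝ) + 1)) * C ≤ ε := by
    intro C hC ε hε
    have h3 : Tendsto (fun m : ℕ => ENNReal.ofReal (1 / ((m : ℝ) + 1))) atTop (𝓝 0) := by
      rw [← ENNReal.ofReal_zero]
      exact ENNReal.tendsto_ofReal tendsto_one_div_add_atTop_nhds_zero_nat
    have h4 : Tendsto (fun m : ℕ => ENNReal.ofReal (1 / ((m : ℝ) + 1)) * C) atTop (𝓝 (0 * C)) :=
      ENNReal.Tendsto.mul_const h3 (Or.inr hC)
    rw [zero_mul] at h4
    exact (h4.eventually (gt_mem_nhds hε)).mono fun _ h => h.le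
  let U : Ultrafilter ℕ := Ultrafilter.of atTop
  have hU : (U : Filter ℕ) ≤ atTop := Ultrafilter.of_le _
  obtain ⟨D'', h1, h2⟩ := limit hc' H U D' hD' (by
    intro K hK m ε hε
    filter_upwards [hU (hsmall _ (F_lt_top hc hK.1.isBounded).ne ε hε)] with k hk
    refine (est1 k K hK).trans (add_le_add ?_ hk)
    exact F_mono (Metric.self_subset_cthickening K)) (by
    intro K hK m ε hε
    obtain ⟨R, hR0, hR⟩ := exists_radius hK
    filter_upwards [hU (hsmall _ (F_lt_top hc (Metric.isBounded_closedBall (x := (0 : E n))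
      (r := R))).ne ε hε)] with k hk
    refine (est2 k K hK).trans (add_le_add ?_ (le_trans ?_ hk))
    · exact F_mono ((hD' k).mono K hK _ (thick_body m (body_nonempty hK))
        (Metric.self_subset_cthickening K))
    · exact mul_le_mul_right (F_mono ((hD' k).sub_ball hK hR0 hR)) _)
  refine ⟨D'', h1, fun K hK => ?_⟩
  have h3 := h2 K hK
  rw [hFc', hFc'] at h3
  exact (ENNReal.mul_right_inj hcJ (hc J)).1 h3

end Pool.Agent.Y513.SB
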