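import Pool.Agent.Y513.SB.Fix

/-!
Conjugation of symmetrizations by isometries and by homotheties.
-/

namespace Pool.Agent.Y513.SB

open MeasureTheory Module Set Filter Topology
open scoped ENNReal Pointwise
open Pool.Agent.Results.MP_b62b68_gt.NoSymmetrization
open Pool.Agent.Y513.SG
open Pool.Agent.W570.Sym (exists_cols V_rot)

variable {n : ℕ} {c : ℕ → ℝ≥0∞}

/-- Every linear isometry comes from an orthogonal matrix. -/
theorem exists_matrix (e : E n ≃ₗᵢ[ℝ] E n) :
    ∃ g : O n, ∀ x, Matrix.toEuclideanLin g.1 x = e x := by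
  let b := EuclideanSpace.basisFun (Fin n) ℝ
  have hf : Orthonormal ℝ (fun k => e (b k)) := b.orthonormal.comp_linearIsometryEquiv e
  obtain ⟨g, hg⟩ := exists_cols le_rfl hf
  refine ⟨g, fun x => ?_⟩
  have h1 : ∀ k, Matrix.toEuclideanLin g.1 (b k) = e (b k) := by
    intro k
    rw [← hg k]
    ext i
    simp [col, b]
  rw [← b.sum_repr x, map_sum, map_sum]
  refine Finset.sum_congr rfl fun k _ => ?_
  rw [map_smul, map_smul, h1]

theorem V_isom {j : ℕ} (hj : j ≤ n) (e : E n ≃ₗᵢ[ℝ] E n) (K : Set (E n)) :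
    V n j (e '' K) = V n j K := by
  obtain ⟨g, hg⟩ := exists_matrix e
  rw [← V_rot hj g K]
  congr 1
  exact Set.image_congr fun x _ => (hg x).symm

theorem V_smul {j : ℕ} (hj : j ≤ n) {t : ℝ} (ht : 0 ≤ t) (K : Set (E n)) :
    V n j ((fun x => t • x) '' K) = ENNReal.ofReal (t ^ j) * V n j K := by
  rw [V_eq hj, V_eq hj]
  have h1 : ∀ g : O n, volume (A n j hj g '' ((fun x => t • x) '' K)) =
      ENNReal.ofReal (t ^ j) * volume (A n j hj g '' K) := by
    intro g
    have h2 : A n j hj g '' ((fun x => t • x) '' K) = (fun y => t • y) '' (A n j hj g '' K) := by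
      rw [Set.image_image, Set.image_image]
      exact Set.image_congr fun x _ => map_smul _ _ _
    rw [h2, Set.image_smul, Measure.addHaar_smul, finrank_euclideanSpace_fin,
      abs_of_nonneg (by positivity)]
  simp only [h1]
  rw [lintegral_const_mul' _ _ ENNReal.ofReal_ne_top]
  ring

theorem F_isom (e : E n ≃ₗᵢ[ℝ] E n) (K : Set (E n)) : F n c (e '' K) = F n c K := by
  unfold F
  refine Finset.sum_congr rfl fun i hi => ?_
  rw [V_isom (Finset.mem_range.1 hi)]

theorem image_body {K : Set (E n)} (hK : K ∈ convexBodies n) (e : E n ≃L[ℝ] E n) :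
    e '' K ∈ convexBodies n := by
  refine ⟨hK.1.image e.continuous, hK.2.1.linear_image (e : E n →ₗ[ℝ] E n), ?_⟩
  obtain ⟨x, hx⟩ := hK.2.2
  refine ⟨e x, ?_⟩
  have h1 : e '' interior K ⊆ interior (e '' K) := by
    refine interior_maximal (Set.image_mono interior_subset) ?_
    exact e.toHomeomorph.isOpenMap _ isOpen_interior
  exact h1 ⟨x, hx, rfl⟩

/-- Conjugation by a linear map which intertwines the reflections. -/
theorem Fix.conj {H H' : Submodule ℝ (E n)} {D : Set (E n) → Set (E n)} (hD : Fix H' D)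
    (e : E n ≃L[ℝ] E n) (he : ∀ x, H'.reflection (e x) = e (H.reflection x)) :
    Fix H (fun K => e.symm '' D (e '' K)) where
  compact := fun K hK => (hD.compact _ (image_body hK e)).image e.symm.continuous
  convex := fun K hK =>
    (hD.convex _ (image_body hK e)).linear_image (e.symm : E n →ₗ[ℝ] E n)
  symm := by
    rintro K hK _ ⟨x, hx, rfl⟩
    refine ⟨H'.reflection x, hD.symm _ (image_body hK e) x hx, ?_⟩
    apply e.injective
    rw [e.apply_symm_apply, ← he, e.apply_symm_apply]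
  mono := fun K hK L hL hKL =>
    Set.image_mono (hD.mono _ (image_body hK e) _ (image_body hL e) (Set.image_mono hKL))
  inv := by
    intro K hK hs
    rw [hD.inv _ (image_body hK e)]
    · rw [Set.image_image]
      simp
    · rintro _ ⟨x, hx, rfl⟩
      exact ⟨H.reflection x, hs x hx, (he x).symm⟩

/-- Two subspaces of the same dimension correspond under an isometry. -/
theorem exists_isom {H H' : Submodule ℝ (E n)} (h : finrank ℝ H = finrank ℝ H') :
    ∃ e : E n ≃ₗᵢ[ℝ] E n, ∀ x, H'.reflection (e x) = e (H.reflection x) := by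
  let b := stdOrthonormalBasis ℝ H
  let b' := (stdOrthonormalBasis ℝ H').reindex (finCongr h.symm)
  let f : H ≃ₗᵢ[ℝ] H' := b.equiv b' (Equiv.refl _)
  let L : H →ₗᵢ[ℝ] E n := H'.subtypeₗᵢ.comp f.toLinearIsometry
  let e : E n ≃ₗᵢ[ℝ] E n := L.extend.toLinearIsometryEquiv rfl
  have he : ∀ x : H, e x = f x := fun x => L.extend_apply x
  refine ⟨e, fun x => ?_⟩
  have hH' : H' = H.map (e.toLinearEquiv : E n →ₗ[ℝ] E n) := by
    refine le_antisymm ?_ ?_
    · intro y hy
      refine ⟨f.symm ⟨y, hy⟩, (f.symm ⟨y, hy⟩).2, ?_⟩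
      change e (f.symm ⟨y, hy⟩) = y
      rw [he, LinearIsometryEquiv.apply_symm_apply]
    · rintro _ ⟨y, hy, rfl⟩
      change e y ∈ H'
      have := he ⟨y, hy⟩
      rw [show e y = f ⟨y, hy⟩ from this]
      exact (f ⟨y, hy⟩).2
  -- the decomposition
  have h1 : e (H.starProjection x) ∈ H' := by
    rw [hH']
    exact ⟨_, Submodule.starProjection_apply_mem H x, rfl⟩
  have h2 : e x - e (H.starProjection x) ∈ H'ᗮ := by
    rw [Submodule.mem_orthogonal]
    intro y hy
    rw [hH'] at hy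
    obtain ⟨z, hz, rfl⟩ := hy
    change inner ℝ (e z) (e x - e (H.starProjection x)) = 0
    rw [← map_sub, e.inner_map_map]
    exact (Submodule.mem_orthogonal _ _).1 (Submodule.sub_starProjection_mem_orthogonal x) z hz
  have h3 : H'.starProjection (e x) = e (H.starProjection x) :=
    Submodule.eq_starProjection_of_mem_orthogonal h1 h2
  rw [← refl_eq, ← refl_eq, h3, map_sub, map_smul]

/-- Limits of linear isometries. -/
theorem exists_isom_limit {I : Type} (U : Ultrafilter I) (e : I → (E n ≃ₗᵢ[ℝ] E n)) :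
    ∃ e' : E n ≃ₗᵢ[ℝ] E n, ∀ (R δ : ℝ), 0 < δ → ∀ᶠ i in (U : Filter I), ∀ x : E n, ‖x‖ ≤ R →
      ‖e i x - e' x‖ ≤ δ := by
  let T : I → (E n →L[ℝ] E n) := fun i => (e i).toContinuousLinearEquiv
  have hT : ∀ i x, T i x = e i x := fun i x => rfl
  have hTn : ∀ i, ‖T i‖ ≤ 1 := by
    intro i
    refine ContinuousLinearMap.opNorm_le_bound _ zero_le_one fun x => ?_
    rw [hT, LinearIsometryEquiv.norm_map, one_mul]
  have hprop : ProperSpace (E n →L[ℝ] E n) := FiniteDimensional.proper ℝ _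
  obtain ⟨T', -, hT'⟩ := (isCompact_closedBall (0 : E n →L[ℝ] E n) 1).ultrafilter_le_nhds
    (U.map T) (le_principal_iff.2 (Eventually.of_forall fun i =>
      mem_closedBall_zero_iff.2 (hTn i) : ∀ᶠ i in (U : Filter I), T i ∈
        Metric.closedBall (0 : E n →L[ℝ] E n) 1))
  have hlim : Tendsto T U (𝓝 T') := hT'
  have hx : ∀ x, ‖T' x‖ = ‖x‖ := by
    intro x
    have h1 : Tendsto (fun i => ‖T i x‖) U (𝓝 ‖T' x‖) :=
      (((ContinuousLinearMap.apply ℝ (E n) x).continuous.tendsto T').comp hlim).norm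
    have h2 : (fun i => ‖T i x‖) = fun _ => ‖x‖ := by
      funext i
      rw [hT, LinearIsometryEquiv.norm_map]
    rw [h2] at h1
    exact tendsto_nhds_unique h1 tendsto_const_nhds
  let li : E n →ₗᵢ[ℝ] E n := ⟨T'.toLinearMap, hx⟩
  refine ⟨li.toLinearIsometryEquiv rfl, fun R δ hδ => ?_⟩
  have h3 : Tendsto (fun i => ‖T i - T'‖ * |R|) U (𝓝 0) := by
    have h4 : Tendsto (fun i => T i - T') U (𝓝 0) := by
      rw [← sub_self T']
      exact hlim.sub tendsto_const_nhds
    have := h4.norm.mul_const |R|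
    simpa using this
  filter_upwards [h3.eventually (gt_mem_nhds hδ)] with i hi x hx
  have h5 : e i x - (li.toLinearIsometryEquiv rfl) x = (T i - T') x := rfl
  rw [h5]
  refine (ContinuousLinearMap.le_opNorm _ _).trans (le_trans ?_ hi.le)
  have : ‖x‖ ≤ |R| := hx.trans (le_abs_self R)
  gcongr

/-- A body is contained in a thickened displaced body. -/
theorem sub_thick {K : Set (E n)} {R : ℝ} (hR : K ⊆ Metric.closedBall 0 R)
    {e e' : E n ≃ₗᵢ[ℝ] E n} {m : ℕ} (h : ∀ x : E n, ‖x‖ ≤ R → ‖e x - e' x‖ ≤ 1 / (m + 1 : ℝ)) :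
    e '' K ⊆ e' '' thick m K := by
  rintro _ ⟨x, hx, rfl⟩
  refine ⟨e'.symm (e x), ?_, e'.apply_symm_apply _⟩
  unfold thick
  refine Metric.mem_cthickening_of_dist_le _ x _ _ hx ?_
  rw [dist_eq_norm, ← LinearIsometryEquiv.norm_map e', map_sub, e'.apply_symm_apply]
  exact h x (mem_closedBall_zero_iff.1 (hR hx))

end Pool.Agent.Y513.SB
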