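import Pool.Agent.Y513.SB.Comp
import Pool.Agent.W570.Sym.Final

/-!
The finite obstruction for symmetrizations which fix the symmetric bodies.
-/

namespace Pool.Agent.Y513.SB

open MeasureTheory Module Set Filter Topology
open scoped ENNReal
open Pool.Agent.Results.MP_b62b68_gt.NoSymmetrization
open Pool.Agent.Y513.SG
open Pool.Agent.W570.Sym (V_translate cyl cyl_body proj_of_cyl)

variable {n : ℕ} {c : ℕ → ℝ≥0∞}

/-- The intrinsic volumes of a body are positive. -/
theorem V_pos {j : ℕ} (hj : j ≤ n) {K : Set (E n)} (hK : K ∈ convexBodies n) : V n j K ≠ 0 := by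
  obtain ⟨-, -, z, hz⟩ := hK
  obtain ⟨r, hr, hzr⟩ := Metric.isOpen_iff.1 isOpen_interior z hz
  let b := EuclideanSpace.basisFun (Fin n) ℝ
  have hf : Orthonormal ℝ (fun k : Fin j => b (Fin.castLE hj k)) :=
    b.orthonormal.comp _ (Fin.castLE_injective hj)
  let Φ : EuclideanSpace ℝ (Fin j) →ₗ[ℝ] E n :=
    (Fintype.linearCombination ℝ (fun k : Fin j => b (Fin.castLE hj k))) ∘ₗ
      (WithLp.linearEquiv 2 ℝ (Fin j → ℝ)).toLinearMap
  have hΦ : Function.Injective Φ := by
    rw [LinearMap.coe_comp]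
    refine Function.Injective.comp ?_ (WithLp.linearEquiv 2 ℝ (Fin j → ℝ)).injective
    exact linearIndependent_iff_injective_fintypeLinearCombination.1 hf.linearIndependent
  obtain ⟨κ, hκ0, hκt, hκ⟩ := V_linear hj (volume : Measure (EuclideanSpace ℝ (Fin j)))
    (by simp) Φ hΦ
  have hc : ContinuousAt Φ 0 := Φ.continuous_of_finiteDimensional.continuousAt
  obtain ⟨δ, hδ, hball⟩ := Metric.continuousAt_iff.1 hc r hr
  have hsub : (fun x => z + x) '' (Φ '' Metric.ball 0 δ) ⊆ K := by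
    rintro _ ⟨_, ⟨y, hy, rfl⟩, rfl⟩
    refine interior_subset (hzr ?_)
    have h1 := hball (Metric.mem_ball.1 hy)
    rw [map_zero, dist_zero_right] at h1
    rw [mem_ball_iff_norm, add_sub_cancel_left]
    exact h1
  intro h0
  have h2 := V_mono (j := j) hsub
  rw [h0, V_translate hj, hκ, nonpos_iff_eq_zero, mul_eq_zero] at h2
  rcases h2 with h2 | h2
  · exact hκ0 h2
  · exact (Metric.measure_ball_pos volume (0 : EuclideanSpace ℝ (Fin j)) hδ).ne' h2

theorem F_pos {i : ℕ} (hi : i < n) (hci : c i ≠ 0) {K : Set (E n)} (hK : K ∈ convexBodies n) :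
    F n c K ≠ 0 := by
  unfold F
  intro h0
  rw [Finset.sum_eq_zero_iff] at h0
  rcases mul_eq_zero.1 (h0 i (Finset.mem_range.2 hi)) with h | h
  · exact hci h
  · exact V_pos hi hK h

/-- The case of codimension at least two. -/
theorem no_low (hc : ∀ i, c i ≠ ∞) (h1 : ∃ i, 1 ≤ i ∧ i < n ∧ c i ≠ 0)
    (H : Submodule ℝ (E n)) (hH : finrank ℝ H + 2 ≤ n) {D : Set (E n) → Set (E n)}
    (hD : Ex H D) (hF : ∀ K ∈ nonemptyCompactConvex n, F n c (D K) = F n c K) : False := by
  classical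
  obtain ⟨i, hi1, hin, hi⟩ := h1
  let P : ℕ → Prop := fun l => l < n ∧ c l ≠ 0
  set J := Nat.findGreatest P n with hJ
  have hPJ : P J := Nat.findGreatest_spec (P := P) hin.le ⟨hin, hi⟩
  have hiJ : i ≤ J := Nat.le_findGreatest hin.le ⟨hin, hi⟩
  have hz : ∀ l, J < l → l < n → c l = 0 := by
    intro l hl hln
    by_contra h0
    exact Nat.findGreatest_is_greatest hl hln.le ⟨hln, h0⟩
  obtain ⟨D', hD', hV⟩ := scaling hc hPJ.1 hPJ.2 hz H hD hF
  obtain ⟨m, hm⟩ : ∃ m, J = m + 1 := ⟨J - 1, by omega⟩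
  have hmn : m + 2 ≤ n := by have := hPJ.1; omega
  have hext : Ext H (m + 2) D' :=
    { compact := hD'.compact
      convex := hD'.convex
      symm := hD'.symm
      mono := hD'.mono
      pres := by
        intro K hK
        have := hV K hK
        rw [hm] at this
        exact this
      inv := hD'.inv }
  obtain ⟨Φ, σ, hΦ, hσ, hρ⟩ := exists_coord hmn H hH
  exact core hmn hext Φ hΦ σ hσ hρ

theorem cyl_symm (H : Submodule ℝ (E n)) (c : E n) (r t : ℝ) :
    ∀ x ∈ cyl H c r t, H.reflection x ∈ cyl H c r t := by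
  rintro x ⟨h1, h2⟩
  have h3 : H.starProjection (H.reflection x) = H.starProjection x := by
    rw [← refl_eq, map_sub, map_smul,
      Submodule.starProjection_eq_self_iff.2 (Submodule.starProjection_apply_mem H x), two_smul]
    abel
  refine ⟨?_, ?_⟩
  · rw [h3]
    exact h1
  · rw [h3, ← refl_eq, two_smul]
    have : H.starProjection x + H.starProjection x - x - H.starProjection x =
        -(x - H.starProjection x) := by abel
    rw [this, norm_neg]
    exact h2

/-- The case of a hyperplane. -/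
theorem no_hyper (hn : 3 ≤ n) (hc : ∀ i, c i ≠ ∞) (h1 : ∃ i, 1 ≤ i ∧ i < n ∧ c i ≠ 0)
    (h2 : ∃ i, i + 1 < n ∧ c i ≠ 0) (H : Submodule ℝ (E n)) (hH : finrank ℝ H + 1 = n)
    {D : Set (E n) → Set (E n)} (hD : Ex H D)
    (hF : ∀ K ∈ nonemptyCompactConvex n, F n c (D K) = F n c K) : False := by
  obtain ⟨i, hi, hci⟩ := h2
  have hB : Bod H D :=
    { compact := hD.fix.compact
      convex := hD.fix.convex
      nonempty := by
        intro K hK
        rw [Set.nonempty_iff_ne_empty]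
        intro h0
        have h3 := hF K (body_nonempty hK)
        rw [h0] at h3
        refine F_pos (by omega) hci hK (le_antisymm ?_ zero_le)
        rw [← h3]
        -- the functional vanishes at the empty set
        unfold F
        refine le_of_eq (Finset.sum_eq_zero fun l hl => ?_)
        rw [V_eq (Finset.mem_range.1 hl)]
        simp
      symm := hD.fix.symm
      mono := hD.fix.mono
      proj := by
        intro K hK x hx
        refine proj_of_cyl H D hD.fix.mono ?_ K hK x hx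
        intro c hcH r t hr ht
        exact hD.fix.inv _ (cyl_body H hcH hr ht) (cyl_symm H c r t) }
  obtain ⟨D', hD'⟩ := exists_ext3 hc H D hB (fun K hK => hF K (body_nonempty hK))
  exact no_ext_all hn hc h1 ⟨i, hi, hci⟩ H hH hD'

theorem obs_low (hc : ∀ i, c i ≠ ∞) (h1 : ∃ i, 1 ≤ i ∧ i < n ∧ c i ≠ 0) {d : ℕ}
    (hd : d + 2 ≤ n) : Obs n c d := by
  by_contra hno
  obtain ⟨H, hH, D, hD, hF⟩ := compactness hc hno
  exact no_low hc h1 H (by omega) hD hF

theorem obs_hyper (hn : 3 ≤ n) (hc : ∀ i, c i ≠ ∞) (h1 : ∃ i, 1 ≤ i ∧ i < n ∧ c i ≠ 0)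
    (h2 : ∃ i, i + 1 < n ∧ c i ≠ 0) : Obs n c (n - 1) := by
  by_contra hno
  obtain ⟨H, hH, D, hD, hF⟩ := compactness hc hno
  exact no_hyper hn hc h1 h2 H (by omega) hD hF

/-- Finitely many dimensions at once. -/
theorem obs_union (S : Finset ℕ) (hS : ∀ d ∈ S, Obs n c d) :
    ∃ (𝓕 : Set (Set (E n))) (ε : ℝ), 𝓕.Finite ∧ 𝓕 ⊆ convexBodies n ∧ 0 < ε ∧
    ∀ H : Submodule ℝ (E n), finrank ℝ H ∈ S → ∀ D : Set (E n) → Set (E n), Fix H D →
      ∃ K ∈ 𝓕, ε ≤ |(F n c (D K)).toReal - (F n c K).toReal| := by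
  classical
  induction S using Finset.induction_on with
  | empty =>
    exact ⟨∅, 1, Set.finite_empty, Set.empty_subset _, one_pos,
      fun H hH => absurd hH (Finset.notMem_empty _)⟩
  | insert d S hd ih =>
    obtain ⟨𝓕, ε, h1, h2, h3, h4⟩ := ih fun d' hd' => hS d' (Finset.mem_insert_of_mem hd')
    obtain ⟨𝓕', ε', h1', h2', h3', h4'⟩ := hS d (Finset.mem_insert_self _ _)
    refine ⟨𝓕 ∪ 𝓕', min ε ε', h1.union h1', Set.union_subset h2 h2', lt_min h3 h3', ?_⟩
    intro H hH D hD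
    rcases Finset.mem_insert.1 hH with h | h
    · obtain ⟨K, hK, hKε⟩ := h4' H h D hD
      exact ⟨K, Or.inr hK, (min_le_right _ _).trans hKε⟩
    · obtain ⟨K, hK, hKε⟩ := h4 H h D hD
      exact ⟨K, Or.inl hK, (min_le_left _ _).trans hKε⟩

end Pool.Agent.Y513.SB
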