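import Pool.Agent.Y513.SG.LimH

/-!
Limits of monotone symmetrizations which fix the symmetric bodies.
-/

namespace Pool.Agent.Y513.SB

open MeasureTheory Module Set Filter Topology
open scoped ENNReal
open Pool.Agent.Results.MP_b62b68_gt.NoSymmetrization
open Pool.Agent.Y513.SG

/-- A monotone symmetrization of the convex bodies which fixes the symmetric bodies. -/
structure Fix {n : ℕ} (H : Submodule ℝ (E n)) (D : Set (E n) → Set (E n)) : Prop where
  compact : ∀ K ∈ convexBodies n, IsCompact (D K)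
  convex : ∀ K ∈ convexBodies n, Convex ℝ (D K)
  symm : ∀ K ∈ convexBodies n, ∀ x ∈ D K, H.reflection x ∈ D K
  mono : ∀ K ∈ convexBodies n, ∀ L ∈ convexBodies n, K ⊆ L → D K ⊆ D L
  inv : ∀ K ∈ convexBodies n, (∀ x ∈ K, H.reflection x ∈ K) → D K = K

/-- The same on all nonempty compact convex sets. -/
structure Ex {n : ℕ} (H : Submodule ℝ (E n)) (D : Set (E n) → Set (E n)) : Prop where
  compact : ∀ K ∈ nonemptyCompactConvex n, IsCompact (D K)
  convex : ∀ K ∈ nonemptyCompactConvex n, Convex ℝ (D K)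
  symm : ∀ K ∈ nonemptyCompactConvex n, ∀ x ∈ D K, H.reflection x ∈ D K
  mono : ∀ K ∈ nonemptyCompactConvex n, ∀ L ∈ nonemptyCompactConvex n, K ⊆ L → D K ⊆ D L
  inv : ∀ K ∈ nonemptyCompactConvex n, (∀ x ∈ K, H.reflection x ∈ K) → D K = K

theorem body_nonempty {n : ℕ} {K : Set (E n)} (hK : K ∈ convexBodies n) :
    K ∈ nonemptyCompactConvex n := ⟨hK.1, hK.2.1, hK.2.2.mono interior_subset⟩

theorem Ex.fix {n : ℕ} {H : Submodule ℝ (E n)} {D : Set (E n) → Set (E n)} (hD : Ex H D) :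
    Fix H D where
  compact := fun K hK => hD.compact K (body_nonempty hK)
  convex := fun K hK => hD.convex K (body_nonempty hK)
  symm := fun K hK => hD.symm K (body_nonempty hK)
  mono := fun K hK L hL => hD.mono K (body_nonempty hK) L (body_nonempty hL)
  inv := fun K hK => hD.inv K (body_nonempty hK)

variable {n : ℕ} {c : ℕ → ℝ≥0∞}

theorem Fix.sub_ball {H : Submodule ℝ (E n)} {D : Set (E n) → Set (E n)} (hD : Fix H D)
    {K : Set (E n)} (hK : K ∈ convexBodies n) {R : ℝ} (hR : 0 < R)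
    (h : K ⊆ Metric.closedBall 0 R) : D K ⊆ Metric.closedBall 0 R := by
  have h1 := hD.mono K hK _ (ball_body hR) h
  rw [hD.inv _ (ball_body hR)] at h1
  · exact h1
  · intro x hx
    rw [mem_closedBall_zero_iff] at hx ⊢
    rw [LinearIsometryEquiv.norm_map]
    exact hx

theorem exists_radius {K : Set (E n)} (hK : K ∈ convexBodies n) :
    ∃ R : ℝ, 0 < R ∧ K ⊆ Metric.closedBall 0 R := by
  obtain ⟨R, hR⟩ := hK.1.isBounded.subset_closedBall 0
  exact ⟨max R 1, by positivity, hR.trans (Metric.closedBall_subset_closedBall (le_max_left _ _))⟩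

/-- A sequence along which the functional converges. -/
theorem seq_lim (hc : ∀ i, c i ≠ ∞) {I : Type} {U : Ultrafilter I}
    {D : I → Set (E n) → Set (E n)} {K : Set (E n)} {R : ℝ}
    (hR : ∀ᶠ i in (U : Filter I), D i K ⊆ Metric.closedBall 0 R)
    (hcp : ∀ i, IsCompact (D i K)) (hcv : ∀ i, Convex ℝ (D i K))
    (P : ℕ → I → Prop) (hP : ∀ k, ∀ᶠ i in (U : Filter I), P k i) :
    ∃ i : ℕ → I, (∀ k, P k (i k)) ∧
      Tendsto (fun k => F n c (D (i k) K)) atTop (𝓝 (F n c (UL U D K))) := by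
  have h1 : ∀ m : ℕ, ∃ i : I, P m i ∧ (D i K ⊆ Metric.cthickening (1 / (m + 1 : ℝ)) (UL U D K)) ∧
      (UL U D K ⊆ Metric.cthickening (1 / (m + 1 : ℝ)) (D i K)) := by
    intro m
    have hm : (0 : ℝ) < 1 / (m + 1 : ℝ) := by positivity
    obtain ⟨i, h2, h3, h4⟩ := ((hP m).and ((UL_close hR hm).and (UL_close' hR hm))).exists
    exact ⟨i, h2, h3, h4⟩
  choose i h2 h3 h4 using h1
  exact ⟨i, h2, F_tendsto hc (UL_compact hR) (UL_convex hcv) (fun m => hcp _) (fun m => hcv _)
    h4 h3⟩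

theorem thick_thick (k : ℕ) (K : Set (E n)) :
    thick (2 * k + 1) (thick (2 * k + 1) K) ⊆ thick k K := by
  unfold thick
  refine (Metric.cthickening_cthickening_subset (by positivity) (by positivity) K).trans ?_
  refine Metric.cthickening_mono (le_of_eq ?_) K
  push_cast
  field_simp
  ring

theorem F_thick (hc : ∀ i, c i ≠ ∞) {K : Set (E n)} (hK : K ∈ nonemptyCompactConvex n) :
    F n c K = ⨅ m, F n c (thick m K) := by
  rw [← F_iInter hc (fun m => (thick_body m hK).1) (thick_anti K), thick_iInter hK.1.isClosed]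

theorem UL_mono {I : Type} {U : Ultrafilter I} {D : I → Set (E n) → Set (E n)} {K L : Set (E n)}
    (h : ∀ i, D i K ⊆ D i L) : UL U D K ⊆ UL U D L := by
  intro x hx δ hδ
  filter_upwards [hx δ hδ] with i hi
  obtain ⟨y, hy, hxy⟩ := hi
  exact ⟨y, h i hy, hxy⟩

/-- The limit theorem. -/
theorem limit (hc : ∀ i, c i ≠ ∞) (H : Submodule ℝ (E n)) {I : Type} (U : Ultrafilter I)
    (D : I → Set (E n) → Set (E n)) (hD : ∀ i, Fix H (D i))
    (hup : ∀ K ∈ convexBodies n, ∀ m : ℕ, ∀ ε : ℝ≥0∞, 0 < ε → ∀ᶠ i in (U : Filter I),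
      F n c (D i K) ≤ F n c (thick m K) + ε)
    (hlo : ∀ K ∈ convexBodies n, ∀ m : ℕ, ∀ ε : ℝ≥0∞, 0 < ε → ∀ᶠ i in (U : Filter I),
      F n c K ≤ F n c (D i (thick m K)) + ε) :
    ∃ D', Ex H D' ∧ ∀ K ∈ nonemptyCompactConvex n, F n c (D' K) = F n c K := by
  have hR : ∀ K ∈ convexBodies n, ∃ R : ℝ, ∀ᶠ i in (U : Filter I),
      D i K ⊆ Metric.closedBall 0 R := by
    intro K hK
    obtain ⟨R, hR0, hR⟩ := exists_radius hK
    exact ⟨R, Eventually.of_forall fun i => (hD i).sub_ball hK hR0 hR⟩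
  have hepos : ∀ k : ℕ, (0 : ℝ≥0∞) < ((k + 1 : ℕ) : ℝ≥0∞)⁻¹ := fun k =>
    ENNReal.inv_pos.2 (ENNReal.natCast_ne_top _)
  have h7 : Tendsto (fun m : ℕ => ((m + 1 : ℕ) : ℝ≥0∞)⁻¹) atTop (𝓝 0) :=
    (ENNReal.tendsto_inv_nat_nhds_zero).comp (tendsto_add_atTop_nat 1)
  have claim1 : ∀ K ∈ convexBodies n, ∀ m : ℕ, F n c (UL U D K) ≤ F n c (thick m K) := by
    intro K hK m
    obtain ⟨R, hRK⟩ := hR K hK
    obtain ⟨i, hi, hlim⟩ := seq_lim hc hRK (fun i => (hD i).compact K hK)
      (fun i => (hD i).convex K hK)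
      (fun k i => F n c (D i K) ≤ F n c (thick m K) + ((k + 1 : ℕ) : ℝ≥0∞)⁻¹)
      (fun k => hup K hK m _ (hepos k))
    have h8 : Tendsto (fun k : ℕ => F n c (thick m K) + ((k + 1 : ℕ) : ℝ≥0∞)⁻¹) atTop
        (𝓝 (F n c (thick m K) + 0)) := tendsto_const_nhds.add h7
    rw [add_zero] at h8
    exact le_of_tendsto_of_tendsto' hlim h8 hi
  have claim2 : ∀ K ∈ convexBodies n, ∀ m : ℕ, F n c K ≤ F n c (UL U D (thick m K)) := by
    intro K hK m
    have hT := thick_body m (body_nonempty hK)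
    obtain ⟨R, hRK⟩ := hR _ hT
    obtain ⟨i, hi, hlim⟩ := seq_lim hc hRK (fun i => (hD i).compact _ hT)
      (fun i => (hD i).convex _ hT)
      (fun k i => F n c K ≤ F n c (D i (thick m K)) + ((k + 1 : ℕ) : ℝ≥0∞)⁻¹)
      (fun k => hlo K hK m _ (hepos k))
    have h8 := hlim.add h7
    rw [add_zero] at h8
    exact ge_of_tendsto' h8 hi
  have hULc : ∀ K ∈ convexBodies n, IsCompact (UL U D K) := by
    intro K hK
    obtain ⟨R, hR⟩ := hR K hK
    exact UL_compact hR
  have hULm : ∀ K ∈ convexBodies n, ∀ L ∈ convexBodies n, K ⊆ L → UL U D K ⊆ UL U D L :=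
    fun K hK L hL hKL => UL_mono fun i => (hD i).mono K hK L hL hKL
  have hULs : ∀ K ∈ convexBodies n, ∀ x ∈ UL U D K, H.reflection x ∈ UL U D K := by
    intro K hK x hx δ hδ
    filter_upwards [hx δ hδ] with i hi
    obtain ⟨y, hy, hxy⟩ := hi
    exact ⟨H.reflection y, (hD i).symm K hK y hy, by rw [H.reflection.dist_map]; exact hxy⟩
  have hULi : ∀ K ∈ convexBodies n, (∀ x ∈ K, H.reflection x ∈ K) → UL U D K = K := by
    intro K hK hs
    have h1 : ∀ i, D i K = K := fun i => (hD i).inv K hK hs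
    refine Set.Subset.antisymm ?_ ?_
    · intro x hx
      rw [← hK.1.isClosed.closure_eq, Metric.mem_closure_iff]
      intro δ hδ
      obtain ⟨i, y, hy, hxy⟩ := (hx δ hδ).exists
      rw [h1 i] at hy
      exact ⟨y, hy, hxy⟩
    · intro x hx δ hδ
      exact Eventually.of_forall fun i => ⟨x, by rw [h1 i]; exact hx, by rwa [dist_self]⟩
  have hanti : ∀ K ∈ nonemptyCompactConvex n, Antitone (fun m => UL U D (thick m K)) := by
    intro K hK a b hab
    exact hULm _ (thick_body b hK) _ (thick_body a hK) (thick_anti K hab)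
  refine ⟨fun K => ⋂ m, UL U D (thick m K), ⟨?_, ?_, ?_, ?_, ?_⟩, ?_⟩
  · intro K hK
    exact (hULc _ (thick_body 0 hK)).of_isClosed_subset
      (isClosed_iInter fun m => (hULc _ (thick_body m hK)).isClosed) (Set.iInter_subset _ 0)
  · intro K hK
    exact convex_iInter fun m => UL_convex fun i => (hD i).convex _ (thick_body m hK)
  · intro K hK x hx
    rw [Set.mem_iInter] at hx ⊢
    intro m
    exact hULs _ (thick_body m hK) x (hx m)
  · intro K hK L hL hKL
    refine Set.iInter_mono fun m => ?_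
    exact hULm _ (thick_body m hK) _ (thick_body m hL)
      (Metric.cthickening_subset_of_subset _ hKL)
  · intro K hK hs
    have h5 : ∀ m, UL U D (thick m K) = thick m K := fun m =>
      hULi _ (thick_body m hK) (thick_symm H m hs)
    simp only [h5]
    exact thick_iInter hK.1.isClosed
  · intro K hK
    rw [F_iInter hc (fun m => hULc _ (thick_body m hK)) (hanti K hK)]
    refine le_antisymm ?_ ?_
    · rw [F_thick hc hK]
      refine le_iInf fun k => (iInf_le _ (2 * k + 1)).trans ?_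
      exact (claim1 _ (thick_body _ hK) (2 * k + 1)).trans (F_mono (thick_thick k K))
    · refine le_iInf fun m => ?_
      have hT := thick_body (2 * m + 1) hK
      refine (F_mono (Metric.self_subset_cthickening K)).trans
        ((claim2 _ hT (2 * m + 1)).trans (F_mono ?_))
      exact hULm _ (thick_body _ (body_nonempty hT)) _ (thick_body m hK) (thick_thick m K)

end Pool.Agent.Y513.SB
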